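import Mathlib

namespace Pool.Agent.Results.MP_160e58_al.GrassmannRBIndex

open Module

/-- A Rota-Baxter operator of weight `0` on an `F`-algebra `A`: a linear map `R` with
`R(x) R(y) = R(R(x) y + x R(y))` for all `x, y`. -/
def IsRotaBaxter {F A : Type*} [Field F] [Ring A] [Algebra F A] (R : A →ₗ[F] A) : Prop :=
  ∀ x y : A, R x * R y = R (R x * y + x * R y)

/-- `m` is the RB-index of the `F`-algebra `A`: the least natural number `m` such that `R ^ m = 0`
for every Rota-Baxter operator `R` of weight `0` on `A`. -/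
def IsRBIndex (F A : Type*) [Field F] [Ring A] [Algebra F A] (m : ℕ) : Prop :=
  IsLeast {k : ℕ | ∀ R : Module.End F A, IsRotaBaxter R → R ^ k = 0} m

variable {F : Type*} [Field F] {n : ℕ}

/-- monomial basis of the Grassmann algebra -/
noncomputable def mon (F : Type*) [Field F] (n : ℕ) :
    Basis (Finset (Fin n)) F (ExteriorAlgebra F (Fin n → F)) :=
  (Pi.basisFun F (Fin n)).ExteriorAlgebra

theorem mon_empty : mon F n ∅ = 1 := by
  rw [mon, ExteriorAlgebra.basis_apply_ofCard (n := 0) _ (Finset.card_empty)]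
  exact ExteriorAlgebra.ιMulti_zero_apply _

theorem mon_mul_disj (S T : Finset (Fin n)) (h : Disjoint S T) :
    ∃ ε : ℤˣ, mon F n S * mon F n T = ε • mon F n (S ∪ T) := by
  have := ExteriorAlgebra.basis_mul_of_disjoint (R := F) (Pi.basisFun F (Fin n))
    (⟨S, rfl⟩ : Set.powersetCard (Fin n) S.card) (⟨T, rfl⟩ : Set.powersetCard (Fin n) T.card) h
  have h2 : ((Set.powersetCard.disjUnion (s := (⟨S, rfl⟩ : Set.powersetCard (Fin n) S.card))
    (t := (⟨T, rfl⟩ : Set.powersetCard (Fin n) T.card)) h : Set.powersetCard (Fin n) _) : Finset (Fin n))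
    = S ∪ T := by
    simp [Set.powersetCard.disjUnion]
  rw [h2] at this
  exact ⟨_, this⟩

theorem mon_mul_not_disj (S T : Finset (Fin n)) (h : ¬ Disjoint S T) :
    mon F n S * mon F n T = 0 :=
  ExteriorAlgebra.basis_mul_of_not_disjoint (R := F) (Pi.basisFun F (Fin n))
    (⟨S, rfl⟩ : Set.powersetCard (Fin n) S.card) (⟨T, rfl⟩ : Set.powersetCard (Fin n) T.card) h

theorem mon_list (S : Finset (Fin n)) : ∃ l : List (Fin n → F), l.length = S.card ∧
    mon F n S = (l.map (CliffordAlgebra.ι (0 : QuadraticForm F (Fin n → F)))).prod := by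
  rw [mon, ExteriorAlgebra.basis_apply_ofCard (n := S.card) _ rfl]
  refine ⟨List.ofFn ((Pi.basisFun F (Fin n)) ∘ (Set.powersetCard.ofFinEmbEquiv.symm
    (Set.powersetCard.ofCard (rfl : S.card = S.card)))), by simp, ?_⟩
  rw [ExteriorAlgebra.ιMulti_family, ExteriorAlgebra.ιMulti_apply, List.map_ofFn]
  rfl

open CliffordAlgebra in
theorem ι_mul_comm' (v : Fin n → F) (x : ExteriorAlgebra F (Fin n → F)) :
    ExteriorAlgebra.ι F v * x = involute x * ExteriorAlgebra.ι F v := by
  induction x using ExteriorAlgebra.induction with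
  | algebraMap r => 
    rw [AlgHom.commutes, Algebra.commutes]
  | ι w =>
    have := ExteriorAlgebra.ι_add_mul_swap (R := F) v w
    rw [CliffordAlgebra.involute_ι, neg_mul]
    exact eq_neg_of_add_eq_zero_left this
  | mul a b ha hb =>
    rw [map_mul, ← mul_assoc, ha, mul_assoc, hb, mul_assoc]
  | add a b ha hb =>
    rw [map_add, mul_add, ha, hb, add_mul]

open CliffordAlgebra in
theorem list_mul_comm' (l : List (Fin n → F)) (x : ExteriorAlgebra F (Fin n → F)) :
    (l.map (CliffordAlgebra.ι (0 : QuadraticForm F (Fin n → F)))).prod * x =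
      (involute^[l.length] x) * (l.map (CliffordAlgebra.ι (0 : QuadraticForm F (Fin n → F)))).prod := by
  induction l generalizing x with
  | nil => simp
  | cons v l ih =>
    rw [List.map_cons, List.prod_cons, mul_assoc, ih, ← mul_assoc]
    have := ι_mul_comm' v (involute^[l.length] x)
    rw [ExteriorAlgebra.ι] at this
    rw [this, List.length_cons, Function.iterate_succ_apply', mul_assoc]

theorem inv2 : (CliffordAlgebra.involute : 
    CliffordAlgebra (0 : QuadraticForm F (Fin n → F)) →ₐ[F] _)^[2] = id := by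
  funext z
  exact CliffordAlgebra.involute_involute z

theorem mon_even_comm (S : Finset (Fin n)) (h : Even S.card) (x : ExteriorAlgebra F (Fin n → F)) :
    mon F n S * x = x * mon F n S := by
  obtain ⟨l, hl, hS⟩ := mon_list (F := F) S
  rw [hS, list_mul_comm', hl]
  obtain ⟨k, hk⟩ := h
  congr 1
  rw [hk, ← two_mul, Function.iterate_mul, inv2]
  simp

theorem mon_odd_anticomm (S T : Finset (Fin n)) (h : Odd S.card) (h' : Odd T.card) :
    mon F n S * mon F n T = - (mon F n T * mon F n S) := by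
  obtain ⟨l, hl, hS⟩ := mon_list (F := F) S
  obtain ⟨l', hl', hT⟩ := mon_list (F := F) T
  rw [hS, list_mul_comm', hl]
  obtain ⟨k, hk⟩ := h
  rw [hk, Function.iterate_add, Function.iterate_mul, inv2, Function.iterate_id, Function.comp, id,
    Function.iterate_one, hT, CliffordAlgebra.involute_prod_map_ι, hl', h'.neg_one_pow]
  simp

/-! ### spans of monomials -/

/-- span of the monomials with index in `P` -/
noncomputable def sp (F : Type*) [Field F] {n : ℕ} (P : Set (Finset (Fin n))) :
    Submodule F (ExteriorAlgebra F (Fin n → F)) :=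
  Submodule.span F (mon F n '' P)

theorem mon_mem_sp {P : Set (Finset (Fin n))} {S : Finset (Fin n)} (h : S ∈ P) :
    mon F n S ∈ sp F P := Submodule.subset_span ⟨S, h, rfl⟩

theorem sp_mono {P Q : Set (Finset (Fin n))} (h : P ⊆ Q) : sp F P ≤ sp F Q :=
  Submodule.span_mono (Set.image_mono h)

theorem sp_univ : sp F (Set.univ : Set (Finset (Fin n))) = ⊤ := by
  rw [sp, Set.image_univ, (mon F n).span_eq]

theorem sp_empty : sp F (∅ : Set (Finset (Fin n))) = ⊥ := by
  rw [sp, Set.image_empty, Submodule.span_empty]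

theorem sp_mul {P Q T : Set (Finset (Fin n))}
    (h : ∀ S ∈ P, ∀ S' ∈ Q, Disjoint S S' → S ∪ S' ∈ T)
    {x y : ExteriorAlgebra F (Fin n → F)} (hx : x ∈ sp F P) (hy : y ∈ sp F Q) : x * y ∈ sp F T := by
  induction hx using Submodule.span_induction with
  | zero => simp
  | add a b _ _ ha hb => rw [add_mul]; exact add_mem ha hb
  | smul c a _ ha => rw [smul_mul_assoc]; exact Submodule.smul_mem _ _ ha
  | mem a ha =>
    obtain ⟨S, hS, rfl⟩ := ha
    induction hy using Submodule.span_induction with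
    | zero => simp
    | add a b _ _ ha hb => rw [mul_add]; exact add_mem ha hb
    | smul c a _ ha => rw [mul_smul_comm]; exact Submodule.smul_mem _ _ ha
    | mem a ha =>
      obtain ⟨S', hS', rfl⟩ := ha
      by_cases hd : Disjoint S S'
      · obtain ⟨ε, hε⟩ := mon_mul_disj (F := F) S S' hd
        rw [hε, Units.smul_def]
        exact zsmul_mem (mon_mem_sp (h S hS S' hS' hd)) _
      · rw [mon_mul_not_disj S S' hd]; exact zero_mem _

/-- degree filtration -/
noncomputable def fil (F : Type*) [Field F] (n : ℕ) (k : ℕ) : Submodule F (ExteriorAlgebra F (Fin n → F)) :=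
  sp F {S | k ≤ S.card}
noncomputable def ef (F : Type*) [Field F] (n : ℕ) (k : ℕ) : Submodule F (ExteriorAlgebra F (Fin n → F)) :=
  sp F {S | k ≤ S.card ∧ Even S.card}
noncomputable def od (F : Type*) [Field F] (n : ℕ) (k : ℕ) : Submodule F (ExteriorAlgebra F (Fin n → F)) :=
  sp F {S | k ≤ S.card ∧ Odd S.card}

theorem fil_mul {i j : ℕ} {x y : ExteriorAlgebra F (Fin n → F)} (hx : x ∈ fil F n i) (hy : y ∈ fil F n j) :
    x * y ∈ fil F n (i + j) := by
  refine sp_mul ?_ hx hy
  intro S hS S' hS' hd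
  simp only [Set.mem_ofPred_eq] at *
  rw [Finset.card_union_of_disjoint hd]; omega

theorem fil_mono {i j : ℕ} (h : i ≤ j) : fil F n j ≤ fil F n i :=
  sp_mono (fun S hS => le_trans h hS)

theorem fil_big {i : ℕ} (h : n < i) {x : ExteriorAlgebra F (Fin n → F)} (hx : x ∈ fil F n i) : x = 0 := by
  have : {S : Finset (Fin n) | i ≤ S.card} = ∅ := by
    ext S
    simp only [Set.mem_ofPred_eq, Set.mem_empty_iff_false, iff_false, not_le]
    calc S.card ≤ Fintype.card (Fin n) := S.card_le_univ
      _ = n := Fintype.card_fin n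
      _ < i := h
  rw [fil, this, sp_empty] at hx
  simpa using hx

theorem fil_zero (x : ExteriorAlgebra F (Fin n → F)) : x ∈ fil F n 0 := by
  have : {S : Finset (Fin n) | 0 ≤ S.card} = Set.univ := by ext; simp
  rw [fil, this, sp_univ]; trivial

theorem fil_pow {x : ExteriorAlgebra F (Fin n → F)} {i : ℕ} (hx : x ∈ fil F n i) (k : ℕ) :
    x ^ k ∈ fil F n (i * k) := by
  induction k with
  | zero => exact fil_zero _
  | succ k ih =>
    rw [pow_succ, Nat.mul_succ]; exact fil_mul ih hx

theorem fil_split {i : ℕ} {x : ExteriorAlgebra F (Fin n → F)} (hx : x ∈ fil F n i) :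
    ∃ x0 ∈ ef F n i, ∃ x1 ∈ od F n i, x = x0 + x1 := by
  induction hx using Submodule.span_induction with
  | zero => exact ⟨0, zero_mem _, 0, zero_mem _, by simp⟩
  | add a b _ _ ha hb =>
    obtain ⟨a0, ha0, a1, ha1, rfl⟩ := ha
    obtain ⟨b0, hb0, b1, hb1, rfl⟩ := hb
    exact ⟨a0 + b0, add_mem ha0 hb0, a1 + b1, add_mem ha1 hb1, by abel⟩
  | smul c a _ ha =>
    obtain ⟨a0, ha0, a1, ha1, rfl⟩ := ha
    exact ⟨c • a0, Submodule.smul_mem _ _ ha0, c • a1, Submodule.smul_mem _ _ ha1, by simp⟩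
  | mem a ha =>
    obtain ⟨S, hS, rfl⟩ := ha
    rcases Nat.even_or_odd S.card with h | h
    · exact ⟨mon F n S, mon_mem_sp ⟨hS, h⟩, 0, zero_mem _, by simp⟩
    · exact ⟨0, zero_mem _, mon F n S, mon_mem_sp ⟨hS, h⟩, by simp⟩

theorem ef_le (i : ℕ) : ef F n i ≤ fil F n i := sp_mono (fun _ hS => hS.1)
theorem od_le (i : ℕ) : od F n i ≤ fil F n i := sp_mono (fun _ hS => hS.1)
theorem ef_odd {i : ℕ} (h : Odd i) : ef F n i ≤ fil F n (i + 1) := by
  refine sp_mono (fun S hS => ?_)
  obtain ⟨h1, h2⟩ := hS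
  simp only [Set.mem_ofPred_eq]
  rcases h with ⟨k, rfl⟩
  rcases h2 with ⟨l, hl⟩
  omega
theorem od_even {i : ℕ} (h : Even i) : od F n i ≤ fil F n (i + 1) := by
  refine sp_mono (fun S hS => ?_)
  obtain ⟨h1, h2⟩ := hS
  simp only [Set.mem_ofPred_eq]
  rcases h with ⟨k, rfl⟩
  rcases h2 with ⟨l, hl⟩
  omega

theorem ef_comm {i : ℕ} {x : ExteriorAlgebra F (Fin n → F)} (hx : x ∈ ef F n i) 
    (y : ExteriorAlgebra F (Fin n → F)) : x * y = y * x := by
  induction hx using Submodule.span_induction with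
  | zero => simp
  | add a b _ _ ha hb => rw [add_mul, ha, hb, mul_add]
  | smul c a _ ha => rw [smul_mul_assoc, ha, mul_smul_comm]
  | mem a ha =>
    obtain ⟨S, hS, rfl⟩ := ha
    exact mon_even_comm S hS.2 y

theorem od_anti {i j : ℕ} {x y : ExteriorAlgebra F (Fin n → F)} (hx : x ∈ od F n i) (hy : y ∈ od F n j) :
    x * y = - (y * x) := by
  induction hx using Submodule.span_induction with
  | zero => simp
  | add a b _ _ ha hb => rw [add_mul, ha, hb, mul_add]; abel
  | smul c a _ ha => rw [smul_mul_assoc, ha, mul_smul_comm, smul_neg]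
  | mem a ha =>
    obtain ⟨S, hS, rfl⟩ := ha
    induction hy using Submodule.span_induction with
    | zero => simp
    | add a b _ _ ha hb => rw [mul_add, ha, hb, add_mul]; abel
    | smul c a _ ha => rw [mul_smul_comm, ha, smul_mul_assoc, smul_neg]
    | mem a ha =>
      obtain ⟨S', hS', rfl⟩ := ha
      exact mon_odd_anticomm S S' hS.2 hS'.2

theorem od_sq [CharZero F] {i : ℕ} {x : ExteriorAlgebra F (Fin n → F)} (hx : x ∈ od F n i) : x * x = 0 := by
  have h := od_anti hx hx
  have h2 : (2 : F) • (x * x) = 0 := by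
    rw [two_smul]; nth_rewrite 1 [h]; simp
  exact (smul_eq_zero.mp h2).resolve_left two_ne_zero

/-- every element is scalar plus augmentation part -/
theorem scal_split (x : ExteriorAlgebra F (Fin n → F)) :
    ∃ c : F, ∃ y ∈ fil F n 1, x = c • 1 + y := by
  have hx := fil_zero x
  induction hx using Submodule.span_induction with
  | zero => exact ⟨0, 0, zero_mem _, by simp⟩
  | add a b _ _ ha hb =>
    obtain ⟨c, y, hy, rfl⟩ := ha
    obtain ⟨d, z, hz, rfl⟩ := hb
    exact ⟨c + d, y + z, add_mem hy hz, by rw [add_smul]; abel⟩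
  | smul c a _ ha =>
    obtain ⟨d, z, hz, rfl⟩ := ha
    exact ⟨c * d, c • z, Submodule.smul_mem _ _ hz, by rw [smul_add, mul_smul]⟩
  | mem a ha =>
    obtain ⟨S, hS, rfl⟩ := ha
    rcases Finset.eq_empty_or_nonempty S with h | h
    · exact ⟨1, 0, zero_mem _, by rw [h, mon_empty]; simp⟩
    · exact ⟨0, mon F n S, mon_mem_sp (Finset.card_pos.mpr h), by simp⟩

/-- Frobenius property -/
theorem frob {y : ExteriorAlgebra F (Fin n → F)} (hy : y ≠ 0) : 
    ∃ u, y * u = mon F n Finset.univ := by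
  classical
  set c := (mon F n).repr y with hc
  have hc0 : c ≠ 0 := by
    intro h; apply hy; rw [hc] at h; simpa using h
  obtain ⟨S, hS, hmin⟩ := Finset.exists_min_image c.support Finset.card 
    (Finsupp.support_nonempty_iff.mpr hc0)
  have hSc : c S ≠ 0 := Finsupp.mem_support_iff.mp hS
  obtain ⟨ε, hε⟩ := mon_mul_disj (F := F) S Sᶜ disjoint_compl_right
  have key : y * mon F n Sᶜ = c S • (ε • mon F n Finset.univ) := by
    have hyy : y = ∑ T ∈ c.support, c T • mon F n T := by
      conv_lhs => rw [← (mon F n).linearCombination_repr y]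
      rfl
    rw [hyy, Finset.sum_mul, Finset.sum_eq_single S]
    · rw [smul_mul_assoc, hε, Finset.union_compl]
    · intro T hT hTS
      rw [smul_mul_assoc, mon_mul_not_disj, smul_zero]
      intro hd
      apply hTS
      have h1 : T ⊆ S := by
        have := disjoint_compl_right_iff.mp hd
        exact this
      exact Finset.eq_of_subset_of_card_le h1 (hmin T hT)
    · intro h; exact absurd hS h
  refine ⟨(c S)⁻¹ • (ε⁻¹ • mon F n Sᶜ), ?_⟩
  rw [mul_smul_comm, Units.smul_def, mul_smul_comm, key]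
  rw [← Units.smul_def, smul_comm (ε⁻¹), smul_smul, inv_mul_cancel₀ hSc, one_smul, smul_smul, 
    inv_mul_cancel, one_smul]

/-! ### Rota-Baxter operators -/

section general
variable {A : Type*} [Ring A] [Algebra F A] {R : Module.End F A} (hR : IsRotaBaxter R)
include hR

theorem rb_left (x : A) : R 1 * R x = R (R 1 * x) + R (R x) := by
  have := hR 1 x
  rw [one_mul, map_add] at this; exact this

theorem rb_right (x : A) : R x * R 1 = R (x * R 1) + R (R x) := by
  have := hR x 1
  rw [mul_one, map_add, add_comm] at this; exact this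

theorem rb_comm (x : A) : R (R 1 * x - x * R 1) = R 1 * R x - R x * R 1 := by
  rw [map_sub, rb_left hR, rb_right hR]; abel

theorem rb_ad (m : ℕ) (y : A) : (m : F) • (R ^ (m + 1)) y = R 1 * (R ^ m) y - (R ^ m) (R 1 * y) := by
  induction m with
  | zero => simp
  | succ m ih =>
    have h1 := rb_left hR ((R ^ m) y)
    have e1 : ∀ k (z : A), R ((R ^ k) z) = (R ^ (k + 1)) z := fun k z => by
      rw [pow_succ', Module.End.mul_apply]
    rw [e1] at h1
    have h2 : R 1 * (R ^ m) y = (m : F) • (R ^ (m + 1)) y + (R ^ m) (R 1 * y) := by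
      rw [ih]; abel
    rw [h2, map_add, map_smul] at h1
    simp only [e1] at h1
    rw [h1, Nat.cast_succ, add_smul, one_smul]; abel

theorem rb_one [CharZero F] (m : ℕ) : (m.factorial : F) • (R ^ m) 1 = (R 1) ^ m := by
  induction m with
  | zero => simp
  | succ m ih =>
    have h := rb_ad hR m 1
    have e : (R ^ m) (R 1 * 1) = (R ^ (m + 1)) 1 := by
      rw [mul_one, pow_succ, Module.End.mul_apply]
    rw [e] at h
    have h2 : ((m + 1 : ℕ) : F) • (R ^ (m + 1)) 1 = R 1 * (R ^ m) 1 := by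
      rw [Nat.cast_succ, add_smul, one_smul, h]; abel
    rw [Nat.factorial_succ, Nat.cast_mul, mul_comm, mul_smul, h2, pow_succ', ← ih, mul_smul_comm]

theorem rb_chain [CharZero F] (x : A) (K : ℕ) 
    (h0 : ∀ i j, i + j = K → (R 1) ^ i * R ((R 1) ^ j * x) = 0) (m : ℕ) :
    ∀ i j, i + j + m = K → (R 1) ^ i * (R ^ (m + 1)) ((R 1) ^ j * x) = 0 := by
  induction m with
  | zero => intro i j hij; simpa using h0 i j hij
  | succ m ih =>
    intro i j hij
    have h := rb_ad hR (m + 1) ((R 1) ^ j * x)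
    have h2 : ((m + 1 : ℕ) : F) • ((R 1) ^ i * (R ^ (m + 1 + 1)) ((R 1) ^ j * x)) = 0 := by
      rw [← mul_smul_comm, h, mul_sub, ← mul_assoc, ← pow_succ, ih (i + 1) j (by omega), 
        ← mul_assoc (R 1), ← pow_succ', ih i (j + 1) (by omega), sub_zero]
    exact (smul_eq_zero.mp h2).resolve_left (Nat.cast_ne_zero.mpr (Nat.succ_ne_zero m))

end general

section gr
variable [CharZero F] {R : Module.End F (ExteriorAlgebra F (Fin n → F))} (hR : IsRotaBaxter R)
include hR

theorem rb_fil1 (x : ExteriorAlgebra F (Fin n → F)) : R x ∈ fil F n 1 := by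
  obtain ⟨c, y, hy, hxy⟩ := scal_split (R x)
  by_cases hc : c = 0
  · rw [hxy, hc]; simpa using hy
  exfalso
  -- scale
  set x' := c⁻¹ • x with hx'
  set ν := -(c⁻¹ • y) with hν
  have hν1 : ν ∈ fil F n 1 := neg_mem (Submodule.smul_mem _ _ hy)
  have hu : R x' = 1 - ν := by
    rw [hx', map_smul, hxy, smul_add, smul_smul, inv_mul_cancel₀ hc, one_smul, hν]; abel
  have hmul : ∀ p q : ExteriorAlgebra F (Fin n → F), p ∈ LinearMap.range R → q ∈ LinearMap.range R → 
      p * q ∈ LinearMap.range R := by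
    rintro _ _ ⟨p, rfl⟩ ⟨q, rfl⟩
    exact ⟨_, (hR p q).symm⟩
  have hk : ∀ k : ℕ, 1 - ν ^ k ∈ LinearMap.range R := by
    intro k
    induction k with
    | zero => simp
    | succ k ih =>
      have : 1 - ν ^ (k + 1) = (1 - ν ^ k) + R x' - (1 - ν ^ k) * R x' := by
        rw [hu, pow_succ]; noncomm_ring
      rw [this]
      exact sub_mem (add_mem ih ⟨x', rfl⟩) (hmul _ _ ih ⟨x', rfl⟩)
  have h1 := hk (n + 1)
  rw [fil_big (i := 1 * (n + 1)) (by omega) (fil_pow hν1 (n + 1)), sub_zero] at h1
  obtain ⟨z, hz⟩ := h1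
  have h2 := hR z z
  rw [hz, one_mul, mul_one, one_mul, map_add, hz] at h2
  have h3 : (1 : ExteriorAlgebra F (Fin n → F)) = 0 := by
    have : (1 : ExteriorAlgebra F (Fin n → F)) + 0 = 1 + 1 := by simpa using h2
    exact (add_left_cancel this).symm
  exact one_ne_zero h3

theorem rb_top {w : ExteriorAlgebra F (Fin n → F)} (hw : w ∈ fil F n n) : R w = 0 := by
  have huniv : R (mon F n Finset.univ) = 0 := by
    by_contra hne
    obtain ⟨u, hu⟩ := frob hne
    have h := hR (mon F n Finset.univ) u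
    have h1 : mon F n Finset.univ * R u = 0 := by
      refine fil_big (i := n + 1) (by omega) (fil_mul (i := n) (j := 1) ?_ (rb_fil1 hR u))
      exact mon_mem_sp (by simp)
    rw [hu, h1, add_zero] at h
    have hk : ∀ k : ℕ, R (mon F n Finset.univ) * (R u) ^ k = R (mon F n Finset.univ) := by
      intro k
      induction k with
      | zero => simp
      | succ k ih => rw [pow_succ, ← mul_assoc, ih, h]
    have h2 := hk (n + 1)
    rw [fil_big (i := 1 * (n + 1)) (by omega) (fil_pow (rb_fil1 hR u) (n + 1)), mul_zero] at h2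
    exact hne h2.symm
  induction hw using Submodule.span_induction with
  | zero => simp
  | add a b _ _ ha hb => rw [map_add, ha, hb, add_zero]
  | smul c a _ ha => rw [map_smul, ha, smul_zero]
  | mem a ha =>
    obtain ⟨S, hS, rfl⟩ := ha
    have : S = Finset.univ := by
      apply Finset.eq_univ_of_card
      simp only [Set.mem_ofPred_eq] at hS
      rw [Fintype.card_fin]
      exact le_antisymm (by simpa using S.card_le_univ) hS
    rw [this, huniv]

end gr


theorem ef_mul_od {i j : ℕ} {x y : ExteriorAlgebra F (Fin n → F)} (hx : x ∈ ef F n i) (hy : y ∈ od F n j) :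
    x * y ∈ od F n (i + j) := by
  refine sp_mul ?_ hx hy
  intro S hS S' hS' hd
  simp only [Set.mem_ofPred_eq] at *
  rw [Finset.card_union_of_disjoint hd]
  exact ⟨by omega, hS.2.add_odd hS'.2⟩

theorem ef_mul {i j : ℕ} {x y : ExteriorAlgebra F (Fin n → F)} (hx : x ∈ ef F n i) (hy : y ∈ ef F n j) :
    x * y ∈ ef F n (i + j) := by
  refine sp_mul ?_ hx hy
  intro S hS S' hS' hd
  simp only [Set.mem_ofPred_eq] at *
  rw [Finset.card_union_of_disjoint hd]
  exact ⟨by omega, hS.2.add hS'.2⟩

theorem ef_pow {x : ExteriorAlgebra F (Fin n → F)} {i : ℕ} (hx : x ∈ ef F n i) (k : ℕ) :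
    x ^ k ∈ ef F n (i * k) := by
  induction k with
  | zero =>
    rw [pow_zero, ← mon_empty]
    exact mon_mem_sp ⟨by simp, by simp⟩
  | succ k ih =>
    rw [pow_succ, Nat.mul_succ]; exact ef_mul ih hx

section gr2
variable [CharZero F] {R : Module.End F (ExteriorAlgebra F (Fin n → F))} (hR : IsRotaBaxter R)

omit [CharZero F] in
theorem sum_pow {a0 a1 : ExteriorAlgebra F (Fin n → F)} (hc : ∀ y, a0 * y = y * a0) (h1 : a1 * a1 = 0) (k : ℕ) :
    (a0 + a1) ^ k = a0 ^ k + (k : F) • (a0 ^ (k - 1) * a1) := by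
  induction k with
  | zero => simp
  | succ k ih =>
    rw [pow_succ, ih]
    have e1 : a0 ^ (k - 1) * a1 * a1 = 0 := by rw [mul_assoc, h1, mul_zero]
    rw [mul_add, add_mul, add_mul, smul_mul_assoc, smul_mul_assoc, e1, smul_zero, add_zero, ← pow_succ,
      Nat.add_sub_cancel, Nat.cast_succ, add_smul, one_smul]
    rcases k with _ | k
    · simp
    · have e2 : a0 ^ (k + 1 - 1) * a1 * a0 = a0 ^ (k + 1) * a1 := by
        rw [mul_assoc, ← hc a1, ← mul_assoc, ← pow_succ]; simp
      rw [e2]; abel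

include hR

theorem rb_upper_aug (hn : 2 ≤ n) (x : ExteriorAlgebra F (Fin n → F)) (hx : x ∈ fil F n 1) : (R ^ n) x = 0 := by
  obtain ⟨a0, ha0, a1, ha1, ha⟩ := fil_split (rb_fil1 hR 1)
  have ha0' : a0 ∈ fil F n 2 := ef_odd (by decide) ha0
  have ha1' : a1 ∈ fil F n 1 := od_le _ ha1
  have hc := ef_comm ha0
  have hsq := od_sq ha1
  have hpow : ∀ k : ℕ, (R 1) ^ k = a0 ^ k + (k : F) • (a0 ^ (k - 1) * a1) := fun k => by
    rw [ha]; exact sum_pow hc hsq k
  have hcp : ∀ k y, a0 ^ k * y = y * a0 ^ k := fun k y => ef_comm (ef_pow ha0 k) y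
  -- the derivation
  have hD : ∀ (i j : ℕ) (y0 y1 : ExteriorAlgebra F (Fin n → F)), y0 ∈ ef F n i → y1 ∈ od F n j →
      R 1 * (y0 + y1) - (y0 + y1) * R 1 = (2 : F) • (a1 * y1) := by
    intro i j y0 y1 h0 h1
    rw [ha, two_smul]
    have e1 := ef_comm h0 a1
    have e2 := ef_comm h0 a0
    have e3 := hc y1
    have e4 : y1 * a1 = - (a1 * y1) := od_anti h1 ha1
    calc (a0 + a1) * (y0 + y1) - (y0 + y1) * (a0 + a1) 
        = (a0 * y0 - y0 * a0) + (a0 * y1 - y1 * a0) + (a1 * y0 - y0 * a1) + (a1 * y1 - y1 * a1) := by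
          noncomm_ring
      _ = a1 * y1 + a1 * y1 := by rw [e1, e2, e3, e4]; abel
  have hax : ∀ (j : ℕ) (y : ExteriorAlgebra F (Fin n → F)), y ∈ fil F n 1 → (R 1) ^ j * y ∈ fil F n (2 * j) := by
    intro j y hy
    rcases j with _ | j
    · exact fil_zero _
    rw [hpow, add_mul]
    refine add_mem ?_ ?_
    · exact fil_mono (by omega) (fil_mul (fil_pow ha0' (j + 1)) hy)
    · rw [smul_mul_assoc]
      refine Submodule.smul_mem _ _ ?_
      refine fil_mono ?_ (fil_mul (fil_mul (fil_pow ha0' (j + 1 - 1)) ha1') hy)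
      simp; omega
  have hR1 := rb_fil1 hR
  have htop : ∀ {w}, w ∈ fil F n n → R w = 0 := fun hw => rb_top hR hw
  obtain ⟨m, rfl⟩ : ∃ m, n = m + 1 := ⟨n - 1, by omega⟩
  have key : ∀ i j, i + j = m → (R 1) ^ i * R ((R 1) ^ j * x) = 0 := by
    intro i j hij
    rcases Nat.even_or_odd (m + 1) with hpar | hpar
    · -- n = 2 s
      obtain ⟨s, hs⟩ := hpar
      rcases lt_trichotomy j (s - 1) with h | h | h
      · -- i ≥ s + 1
        refine fil_big (i := 2 * i) (by omega) (hax i _ (hR1 _))
      · have hi : i = s := by omega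
        subst hi; subst h
        obtain ⟨z0, hz0, z1, hz1, hz⟩ := fil_split (hax (i - 1) x hx)
        have hz1' := od_even (by simp) hz1
        have hDz := hD _ _ z0 z1 hz0 hz1
        rw [← hz] at hDz
        have h1 : R ((2 : F) • (a1 * z1)) = 0 := by
          apply htop
          refine Submodule.smul_mem _ _ (fil_mono ?_ (fil_mul ha1' hz1'))
          omega
        rw [← hDz, rb_comm hR] at h1
        obtain ⟨y0, hy0, y1, hy1, hy⟩ := fil_split (hR1 ((R 1) ^ (i - 1) * x))
        rw [hy, hD _ _ _ _ hy0 hy1] at h1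
        have h2 : a1 * y1 = 0 := (smul_eq_zero.mp h1).resolve_left two_ne_zero
        have hy0' := ef_odd (by decide) hy0
        rw [hpow, add_mul]
        have t1 : a0 ^ i * R ((R 1) ^ (i - 1) * x) = 0 :=
          fil_big (i := 2 * i + 1) (by omega) (fil_mul (fil_pow ha0' i) (hR1 _))
        have t2 : a0 ^ (i - 1) * a1 * R ((R 1) ^ (i - 1) * x) = 0 := by
          rw [hy, mul_assoc, mul_add, h2, add_zero]
          exact fil_big (i := 2 * (i - 1) + (1 + (1 + 1))) (by omega) 
            (fil_mul (fil_pow ha0' (i - 1)) (fil_mul ha1' hy0'))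
        rw [t1, smul_mul_assoc, t2, smul_zero, add_zero]
      · -- j ≥ s
        have h0 : R ((R 1) ^ j * x) = 0 := htop (fil_mono (by omega) (hax j x hx))
        rw [h0, mul_zero]
    · obtain ⟨s, hs⟩ := hpar
      rcases lt_trichotomy j s with h | h | h
      · refine fil_big (i := 2 * i) (by omega) (hax i _ (hR1 _))
      · have hi : i = s := by omega
        subst h; subst hi
        obtain ⟨x0, hx0, x1, hx1, hxx⟩ := fil_split hx
        have hx0' := ef_odd (by decide) hx0
        set q := a0 ^ (i - 1) * x1 with hq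
        have hqo : q ∈ od F (m + 1) _ := ef_mul_od (ef_pow ha0 (i - 1)) hx1
        obtain ⟨r0, hr0, r1, hr1, hr⟩ := fil_split (hR1 q)
        have hDq := hD 0 _ 0 q (zero_mem _) hqo
        rw [zero_add] at hDq
        have h1 : R ((2 : F) • (a1 * q)) = (2 : F) • (a1 * r1) := by
          rw [← hDq, rb_comm hR, hr, hD _ _ _ _ hr0 hr1]
        have h2 : R (a1 * q) = a1 * r1 := by
          rw [map_smul] at h1
          exact smul_right_injective _ (two_ne_zero : (2 : F) ≠ 0) h1
        have h3 : R ((R 1) ^ i * x) = (i : F) • (a1 * r1) := by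
          have t1 : R (a0 ^ i * x) = 0 := htop (fil_mono (by omega) (fil_mul (fil_pow ha0' i) hx))
          have t2 : R (a0 ^ (i - 1) * a1 * x0) = 0 := by
            apply htop
            rw [mul_assoc]
            refine fil_mono ?_ (fil_mul (fil_pow ha0' (i - 1)) (fil_mul ha1' hx0'))
            omega
          have t3 : a0 ^ (i - 1) * a1 * x1 = a1 * q := by
            rw [hq, hcp, mul_assoc, hcp]
          rw [hpow, add_mul, map_add, t1, smul_mul_assoc, map_smul, zero_add]
          nth_rewrite 1 [hxx]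
          rw [mul_add, map_add, t2, zero_add, t3, h2]
        rw [h3, hpow, mul_smul_comm, add_mul]
        have t4 : a0 ^ i * (a1 * r1) = 0 :=
          fil_big (i := 2 * i + (1 + 1)) (by omega) (fil_mul (fil_pow ha0' i) (fil_mul ha1' (od_le _ hr1)))
        have t5 : a0 ^ (i - 1) * a1 * (a1 * r1) = 0 := by
          rw [mul_assoc, ← mul_assoc a1, hsq, zero_mul, mul_zero]
        rw [t4, smul_mul_assoc, t5, smul_zero, add_zero, smul_zero]
      · have : (R 1) ^ j * x = 0 := fil_big (i := 2 * j) (by omega) (hax j x hx)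
        rw [this, map_zero, mul_zero]
  simpa using rb_chain hR x m key m 0 0 (by simp)

theorem rb_upper (hn : 2 ≤ n) : R ^ n = 0 := by
  refine LinearMap.ext fun x => ?_
  obtain ⟨c, y, hy, rfl⟩ := scal_split x
  rw [map_add, rb_upper_aug hR hn y hy, map_smul]
  have h1 := rb_one hR n
  have h2 : (R 1) ^ n = 0 := by
    obtain ⟨a0, ha0, a1, ha1, ha⟩ := fil_split (rb_fil1 hR 1)
    have ha0' : a0 ∈ fil F n 2 := ef_odd (by decide) ha0
    rw [ha, sum_pow (ef_comm ha0) (od_sq ha1)]
    rw [fil_big (i := 2 * n) (by omega) (fil_pow ha0' n), 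
      fil_big (i := 2 * (n - 1) + 1) (by omega) (fil_mul (fil_pow ha0' (n - 1)) (od_le _ ha1))]
    simp
  rw [h2] at h1
  have h3 : (R ^ n) 1 = 0 := 
    (smul_eq_zero.mp h1).resolve_left (Nat.cast_ne_zero.mpr (Nat.factorial_ne_zero n))
  rw [h3]; simp

end gr2


/-! ### lower bound -/

theorem rb_of_mon {R : Module.End F (ExteriorAlgebra F (Fin n → F))}
    (h : ∀ S T : Finset (Fin n), R (mon F n S) * R (mon F n T) =
      R (R (mon F n S) * mon F n T + mon F n S * R (mon F n T))) : IsRotaBaxter R := by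
  intro x y
  have hx := fil_zero x
  have hy := fil_zero y
  induction hx using Submodule.span_induction with
  | zero => simp
  | add a b _ _ ha hb =>
    rw [map_add, add_mul, add_mul, add_mul, ha, hb, ← map_add]
    congr 1; abel
  | smul c a _ ha =>
    rw [map_smul, smul_mul_assoc, smul_mul_assoc, smul_mul_assoc, ha, ← smul_add, map_smul]
  | mem a ha =>
    obtain ⟨S, hS, rfl⟩ := ha
    induction hy using Submodule.span_induction with
    | zero => simp
    | add a b _ _ ha hb =>
      rw [map_add, mul_add, mul_add, mul_add, ha, hb, ← map_add]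
      congr 1; abel
    | smul c a _ ha =>
      rw [map_smul, mul_smul_comm, mul_smul_comm, mul_smul_comm, ha, ← smul_add, map_smul]
    | mem a ha =>
      obtain ⟨S', hS', rfl⟩ := ha
      exact h S S'

theorem repr_sp {P : Set (Finset (Fin n))} {S : Finset (Fin n)} (hS : S ∉ P)
    {z : ExteriorAlgebra F (Fin n → F)} (hz : z ∈ sp F P) : (mon F n).repr z S = 0 := by
  induction hz using Submodule.span_induction with
  | zero => simp
  | add a b _ _ ha hb => simp [ha, hb]
  | smul c a _ ha => simp [ha]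
  | mem a ha =>
    obtain ⟨T, hT, rfl⟩ := ha
    rw [Basis.repr_self, Finsupp.single_apply, if_neg]
    rintro rfl; exact hS hT

/-- weight of a set of indices -/
def wS (W : Fin n → ℤ) (S : Finset (Fin n)) : ℤ := ∑ i ∈ S, W i

theorem wS_union (W : Fin n → ℤ) {S T : Finset (Fin n)} (h : Disjoint S T) :
    wS W (S ∪ T) = wS W S + wS W T := Finset.sum_union h

noncomputable def wt (F : Type*) [Field F] {n : ℕ} (W : Fin n → ℤ) (k : ℤ) :
    Submodule F (ExteriorAlgebra F (Fin n → F)) := sp F {S | wS W S = k}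

theorem wt_mul {W : Fin n → ℤ} {k l : ℤ} {x y : ExteriorAlgebra F (Fin n → F)}
    (hx : x ∈ wt F W k) (hy : y ∈ wt F W l) : x * y ∈ wt F W (k + l) := by
  refine sp_mul ?_ hx hy
  intro S hS S' hS' hd
  simp only [Set.mem_ofPred_eq] at *
  rw [wS_union W hd, hS, hS']

/-- the operator -/
noncomputable def opR (W : Fin n → ℤ) (a : ExteriorAlgebra F (Fin n → F)) (f : Fin n)
    (S1 : Finset (Fin n)) : Module.End F (ExteriorAlgebra F (Fin n → F)) :=
  (mon F n).constr F (fun S => ((wS W S + 2 : ℤ) : F)⁻¹ • (a * mon F n S) +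
    (if S = S1 then mon F n {f} else 0))

theorem opR_wt (W : Fin n → ℤ) (a : ExteriorAlgebra F (Fin n → F)) (f : Fin n)
    (S1 : Finset (Fin n)) {k : ℤ} {z : ExteriorAlgebra F (Fin n → F)} (hz : z ∈ wt F W k) :
    opR W a f S1 z = ((k + 2 : ℤ) : F)⁻¹ • (a * z) + (mon F n).repr z S1 • mon F n {f} := by
  induction hz using Submodule.span_induction with
  | zero => simp
  | add x y _ _ hx hy =>
    rw [map_add, hx, hy, mul_add, smul_add, map_add, Finsupp.add_apply, add_smul]; abel
  | smul c x _ hx =>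
    rw [map_smul, hx, map_smul, Finsupp.smul_apply, smul_add, mul_smul_comm, smul_comm c, smul_smul c]
    rfl
  | mem x hx =>
    obtain ⟨S, hS, rfl⟩ := hx
    have hS' : wS W S = k := hS
    rw [opR, Basis.constr_basis, Basis.repr_self, hS']
    by_cases h : S = S1
    · subst h; simp
    · rw [if_neg h, Finsupp.single_apply, if_neg h, zero_smul]

structure Dat (W : Fin n → ℤ) (a : ExteriorAlgebra F (Fin n → F)) (x f : Fin n)
    (S1 : Finset (Fin n)) : Prop where
  ha : a ∈ wt F W 2
  hac : ∀ y, a * y = y * a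
  hx0 : ∀ V : Finset (Fin n), x ∈ V → wS W V ≠ 0
  hneg : ∀ S : Finset (Fin n), wS W S < 0 → x ∈ S
  hf : W f = 0
  hS1 : wS W S1 = -2
  hfS1 : f ∉ S1
  hcl : ∀ S, wS W S = -2 → S = S1 ∨ S = insert f S1

theorem opR_rb [CharZero F] {W : Fin n → ℤ} {a : ExteriorAlgebra F (Fin n → F)} {x f : Fin n}
    {S1 : Finset (Fin n)} (D : Dat W a x f S1) : IsRotaBaxter (opR W a f S1) := by
  apply rb_of_mon
  intro S T
  have hz : mon F n S ∈ wt F W (wS W S) := mon_mem_sp rfl
  have hz' : mon F n T ∈ wt F W (wS W T) := mon_mem_sp rfl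
  generalize mon F n S = z at *
  generalize mon F n T = z' at *
  generalize wS W S = k at *
  generalize wS W T = l at *
  -- facts
  have wtx : ∀ {k : ℤ} {u : ExteriorAlgebra F (Fin n → F)}, k < 0 → u ∈ wt F W k →
      u ∈ sp F {S | wS W S = k ∧ x ∈ S} := by
    intro k u hk hu
    refine sp_mono ?_ hu
    intro S hS
    simp only [Set.mem_ofPred_eq] at *
    exact ⟨hS, D.hneg S (by omega)⟩
  have wtxmul : ∀ {k : ℤ} {u : ExteriorAlgebra F (Fin n → F)}, u ∈ sp F {S | wS W S = k ∧ x ∈ S} →
      a * u ∈ sp F {S | wS W S = k + 2 ∧ x ∈ S} := by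
    intro k u hu
    refine sp_mul ?_ D.ha hu
    intro S hS S' hS' hd
    simp only [Set.mem_ofPred_eq] at *
    refine ⟨?_, Finset.mem_union_right _ hS'.2⟩
    rw [wS_union W hd, hS, hS'.1]; ring
  have wtx0 : ∀ {u : ExteriorAlgebra F (Fin n → F)}, u ∈ sp F {S | wS W S = 0 ∧ x ∈ S} → u = 0 := by
    intro u hu
    have : {S | wS W S = 0 ∧ x ∈ S} = (∅ : Set (Finset (Fin n))) := by
      ext S
      simp only [Set.mem_ofPred_eq, Set.mem_empty_iff_false, iff_false, not_and]
      intro h1 h2
      exact D.hx0 S h2 h1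
    rw [this, sp_empty] at hu
    simpa using hu
  have K2 : ∀ {u : ExteriorAlgebra F (Fin n → F)}, u ∈ wt F W (-2) → a * u = 0 := by
    intro u hu
    have := wtxmul (wtx (by norm_num) hu)
    exact wtx0 (by simpa using this)
  have K4 : ∀ {u : ExteriorAlgebra F (Fin n → F)}, u ∈ wt F W (-4) → a * (a * u) = 0 := by
    intro u hu
    have := wtxmul (wtxmul (wtx (by norm_num) hu))
    exact wtx0 (by simpa using this)
  have Kr : ∀ {k : ℤ} {u : ExteriorAlgebra F (Fin n → F)}, k ≠ -2 → u ∈ wt F W k →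
      (mon F n).repr u S1 = 0 := by
    intro k u hk hu
    refine repr_sp ?_ hu
    simp only [Set.mem_ofPred_eq]
    rw [D.hS1]; exact fun h => hk h.symm
  have hR : ∀ {k : ℤ} {u : ExteriorAlgebra F (Fin n → F)}, k ≠ -2 → u ∈ wt F W k →
      opR W a f S1 u = ((k + 2 : ℤ) : F)⁻¹ • (a * u) := by
    intro k u hk hu
    rw [opR_wt W a f S1 hu, Kr hk hu, zero_smul, add_zero]
  have hR2 : ∀ {u : ExteriorAlgebra F (Fin n → F)}, u ∈ wt F W (-2) →
      opR W a f S1 u = (mon F n).repr u S1 • mon F n {f} := by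
    intro u hu
    rw [opR_wt W a f S1 hu, K2 hu, smul_zero, zero_add]
  have hfw : mon F n {f} ∈ wt F W 0 := by
    refine mon_mem_sp ?_
    simp only [Set.mem_ofPred_eq, wS, Finset.sum_singleton]
    exact D.hf
  have hff : mon F n {f} * mon F n {f} = 0 := mon_mul_not_disj _ _ (by simp)
  have hfk : ∀ {u : ExteriorAlgebra F (Fin n → F)}, u ∈ sp F {S | S = insert f S1} →
      opR W a f S1 u = 0 := by
    intro u hu
    have h1 : u ∈ wt F W (-2) := by
      refine sp_mono ?_ hu
      rintro S hS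
      simp only [Set.mem_ofPred_eq] at *
      rw [hS, wS, Finset.sum_insert D.hfS1, D.hf, zero_add]
      exact D.hS1
    rw [hR2 h1, repr_sp ?_ hu, zero_smul]
    simp only [Set.mem_ofPred_eq]
    intro h
    exact D.hfS1 (h ▸ Finset.mem_insert_self f S1)
  have hfl : ∀ {u : ExteriorAlgebra F (Fin n → F)}, u ∈ wt F W (-2) →
      mon F n {f} * u ∈ sp F {S | S = insert f S1} := by
    intro u hu
    refine sp_mul (P := {S | S = {f}}) ?_ (mon_mem_sp rfl) hu
    intro S hS S' hS' hd
    simp only [Set.mem_ofPred_eq] at *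
    subst hS
    rcases D.hcl S' hS' with h | h
    · rw [h]; rfl
    · rw [h] at hd; simp at hd
  have hfr : ∀ {u : ExteriorAlgebra F (Fin n → F)}, u ∈ wt F W (-2) →
      u * mon F n {f} ∈ sp F {S | S = insert f S1} := by
    intro u hu
    refine sp_mul (Q := {S | S = {f}}) ?_ hu (mon_mem_sp rfl)
    intro S' hS' S hS hd
    simp only [Set.mem_ofPred_eq] at *
    subst hS
    rcases D.hcl S' hS' with h | h
    · rw [h, Finset.union_comm]; rfl
    · rw [h] at hd; simp at hd
  have hac := D.hac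
  by_cases hk : k = -2
  · subst hk
    by_cases hl : l = -2
    · subst hl
      rw [hR2 hz, hR2 hz', map_add, smul_mul_smul_comm, hff, smul_zero, smul_mul_assoc, mul_smul_comm,
        map_smul, map_smul, hfk (hfl hz'), hfk (hfr hz)]
      simp
    · have h1 : mon F n {f} * z' ∈ wt F W l := by
        have := wt_mul hfw hz'; rwa [zero_add] at this
      have h2 : z * (((l + 2 : ℤ) : F)⁻¹ • (a * z')) = 0 := by
        rw [mul_smul_comm, ← mul_assoc z, ← hac z, K2 hz, zero_mul, smul_zero]
      rw [hR2 hz, hR hl hz', h2, add_zero, smul_mul_assoc _ (mon F n {f}) z', map_smul, hR hl h1,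
        smul_mul_smul_comm, ← mul_assoc a, hac (mon F n {f}), mul_assoc, mul_smul]
  · by_cases hl : l = -2
    · subst hl
      have h1 : z * mon F n {f} ∈ wt F W k := by
        have := wt_mul hz hfw; rwa [add_zero] at this
      have h2 : (((k + 2 : ℤ) : F)⁻¹ • (a * z)) * z' = 0 := by
        rw [smul_mul_assoc, hac z, mul_assoc z, K2 hz', mul_zero, smul_zero]
      rw [hR2 hz', hR hk hz, h2, zero_add, mul_smul_comm _ z, map_smul, hR hk h1, smul_mul_smul_comm,
        ← mul_assoc a, mul_comm, mul_smul]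
    · have hzz := wt_mul hz hz'
      have hk' : ((k + 2 : ℤ) : F) ≠ 0 := by
        rw [Int.cast_ne_zero]; omega
      have hl' : ((l + 2 : ℤ) : F) ≠ 0 := by
        rw [Int.cast_ne_zero]; omega
      have e1 : z * (a * z') = a * (z * z') := by rw [← mul_assoc, ← hac z, mul_assoc]
      have e2 : (a * z) * (a * z') = a * (a * (z * z')) := by
        rw [mul_assoc, e1]
      rw [hR hk hz, hR hl hz', smul_mul_smul_comm, e2, smul_mul_assoc, mul_smul_comm, e1, mul_assoc a,
        ← add_smul, map_smul]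
      by_cases hkl : k + l = -4
      · rw [hkl] at hzz
        rw [K4 hzz, smul_zero]
        have : ((k + 2 : ℤ) : F)⁻¹ + ((l + 2 : ℤ) : F)⁻¹ = 0 := by
          have h5 : l + 2 = -(k + 2) := by omega
          rw [h5, Int.cast_neg, inv_neg, add_neg_cancel]
        rw [this, zero_smul]
      · have h1 : a * (z * z') ∈ wt F W (2 + (k + l)) := wt_mul D.ha hzz
        rw [hR (by omega) h1, smul_smul]
        congr 1
        have hkl' : ((2 + (k + l) + 2 : ℤ) : F) ≠ 0 := by
          rw [Int.cast_ne_zero]; omega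
        push_cast at hk' hl' hkl' ⊢
        field_simp
        ring


theorem opR_chain [CharZero F] {W : Fin n → ℤ} {a : ExteriorAlgebra F (Fin n → F)} {x f : Fin n}
    {S1 : Finset (Fin n)} (D : Dat W a x f S1) (p q : ℕ) (hx : W x = -(2 * p + 2)) {c : F} (hc : c ≠ 0)
    (h1 : a ^ p * mon F n {x} = c • mon F n S1) (h2 : a ^ q * mon F n {f} ≠ 0) :
    ((opR W a f S1) ^ (q + 1 + p)) (mon F n {x}) ≠ 0 := by
  have hapow : ∀ (y : Fin n) (j : ℕ), a ^ j * mon F n {y} ∈ wt F W (2 * j + W y) := by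
    intro y j
    induction j with
    | zero =>
      rw [pow_zero, one_mul]
      refine mon_mem_sp ?_
      simp [wS]
    | succ j ih =>
      rw [pow_succ', mul_assoc]
      have := wt_mul D.ha ih
      convert this using 1
      push_cast; ring
  have hstep : ∀ (y : Fin n) (j : ℕ), (2 * j + W y : ℤ) ≠ -2 →
      opR W a f S1 (a ^ j * mon F n {y}) =
        ((2 * j + W y + 2 : ℤ) : F)⁻¹ • (a ^ (j + 1) * mon F n {y}) := by
    intro y j hj
    rw [opR_wt W a f S1 (hapow y j), repr_sp ?_ (hapow y j), zero_smul, add_zero, ← mul_assoc, ← pow_succ']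
    simp only [Set.mem_ofPred_eq]
    rw [D.hS1]; exact fun h => hj h.symm
  have s1 : ∀ j : ℕ, j ≤ p → ∃ d : F, d ≠ 0 ∧ ((opR W a f S1) ^ j) (mon F n {x}) = d • (a ^ j * mon F n {x}) := by
    intro j
    induction j with
    | zero => intro _; exact ⟨1, one_ne_zero, by simp⟩
    | succ j ih =>
      intro hj
      obtain ⟨d, hd, hd'⟩ := ih (by omega)
      have hne : (2 * j + W x + 2 : ℤ) ≠ 0 := by rw [hx]; omega
      refine ⟨d * ((2 * j + W x + 2 : ℤ) : F)⁻¹, mul_ne_zero hd (inv_ne_zero (Int.cast_ne_zero.mpr hne)), ?_⟩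
      rw [pow_succ', Module.End.mul_apply, hd', map_smul, hstep x j (by omega), smul_smul]
  have s2 : opR W a f S1 (mon F n S1) = mon F n {f} := by
    rw [opR, Basis.constr_basis, D.hS1, if_pos rfl]
    norm_num
  have s3 : ∀ j : ℕ, ∃ d : F, d ≠ 0 ∧ ((opR W a f S1) ^ j) (mon F n {f}) = d • (a ^ j * mon F n {f}) := by
    intro j
    induction j with
    | zero => exact ⟨1, one_ne_zero, by simp⟩
    | succ j ih =>
      obtain ⟨d, hd, hd'⟩ := ih
      have hne : (2 * j + W f + 2 : ℤ) ≠ 0 := by rw [D.hf]; omega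
      refine ⟨d * ((2 * j + W f + 2 : ℤ) : F)⁻¹, mul_ne_zero hd (inv_ne_zero (Int.cast_ne_zero.mpr hne)), ?_⟩
      rw [pow_succ', Module.End.mul_apply, hd', map_smul, hstep f j (by rw [D.hf]; omega), smul_smul]
  obtain ⟨d, hd, hd'⟩ := s1 p le_rfl
  obtain ⟨e, he, he'⟩ := s3 q
  rw [pow_add, pow_add, pow_one, Module.End.mul_apply, Module.End.mul_apply, hd', h1, map_smul, map_smul,
    map_smul, s2, map_smul, he']
  exact smul_ne_zero hd (smul_ne_zero hc (smul_ne_zero he h2))

noncomputable def EE (F : Type*) [Field F] (n : ℕ) (k : ℕ) : ExteriorAlgebra F (Fin n → F) :=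
  if h : k < n then mon F n {⟨k, h⟩} else 0

noncomputable def tt (F : Type*) [Field F] (n : ℕ) (m i : ℕ) : ExteriorAlgebra F (Fin n → F) :=
  EE F n (m + 2 * i) * EE F n (m + 2 * i + 1)

theorem EE_od (k : ℕ) : EE F n k ∈ od F n 0 := by
  rw [EE]
  split_ifs with h
  · exact mon_mem_sp ⟨by simp, by simp⟩
  · exact zero_mem _

theorem od_mul {i j : ℕ} {x y : ExteriorAlgebra F (Fin n → F)} (hx : x ∈ od F n i) (hy : y ∈ od F n j) :
    x * y ∈ ef F n (i + j) := by
  refine sp_mul ?_ hx hy
  intro S hS S' hS' hd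
  simp only [Set.mem_ofPred_eq] at *
  rw [Finset.card_union_of_disjoint hd]
  exact ⟨by omega, hS.2.add_odd hS'.2⟩

theorem EE_sq (k : ℕ) : EE F n k * EE F n k = 0 := by
  rw [EE]
  split_ifs with h
  · exact mon_mul_not_disj _ _ (by simp)
  · simp

theorem EEEE_comm (k l : ℕ) (y : ExteriorAlgebra F (Fin n → F)) :
    (EE F n k * EE F n l) * y = y * (EE F n k * EE F n l) := ef_comm (od_mul (EE_od k) (EE_od l)) y

theorem EEEE_sq (k l : ℕ) : (EE F n k * EE F n l) * (EE F n k * EE F n l) = 0 := by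
  have h := od_anti (EE_od (F := F) (n := n) l) (EE_od (F := F) (n := n) k)
  calc (EE F n k * EE F n l) * (EE F n k * EE F n l) = EE F n k * (EE F n l * EE F n k) * EE F n l := by
        noncomm_ring
    _ = - ((EE F n k * EE F n k) * (EE F n l * EE F n l)) := by rw [h]; noncomm_ring
    _ = 0 := by rw [EE_sq]; simp

noncomputable def TT (F : Type*) [Field F] (n m q : ℕ) : ExteriorAlgebra F (Fin n → F) :=
  ∑ i ∈ Finset.range q, tt F n m i

noncomputable def PP (F : Type*) [Field F] (n m : ℕ) : ℕ → ExteriorAlgebra F (Fin n → F)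
  | 0 => 1
  | q + 1 => PP F n m q * tt F n m q

theorem TT_comm (m q : ℕ) (y : ExteriorAlgebra F (Fin n → F)) : TT F n m q * y = y * TT F n m q := by
  rw [TT, Finset.sum_mul, Finset.mul_sum]
  exact Finset.sum_congr rfl fun i _ => EEEE_comm _ _ y

theorem TT_pow (m q : ℕ) : TT F n m q ^ q = (q.factorial : F) • PP F n m q ∧ TT F n m q ^ (q + 1) = 0 := by
  induction q with
  | zero => simp [TT, PP]
  | succ q ih =>
    obtain ⟨h1, h2⟩ := ih
    have e : TT F n m (q + 1) = TT F n m q + tt F n m q := by rw [TT, Finset.sum_range_succ]; rfl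
    have hc := TT_comm (F := F) (n := n) m q
    have hs : tt F n m q * tt F n m q = 0 := EEEE_sq _ _
    constructor
    · rw [e, sum_pow hc hs, h2, zero_add, Nat.add_sub_cancel, h1, PP, smul_mul_assoc, smul_smul,
        Nat.factorial_succ, Nat.cast_mul]
    · rw [e, sum_pow hc hs, Nat.add_sub_cancel, h2, pow_succ, h2]
      simp

theorem EE_mul (k : ℕ) (hk : k < n) (U : Finset (Fin n)) (hU : (⟨k, hk⟩ : Fin n) ∉ U) :
    ∃ ε : ℤˣ, EE F n k * mon F n U = ε • mon F n (insert ⟨k, hk⟩ U) := by
  rw [EE, dif_pos hk, Finset.insert_eq]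
  exact mon_mul_disj _ _ (by simpa using hU)

theorem EEEE_mul (k l : ℕ) (hk : k < n) (hl : l < n) (hkl : k ≠ l) (U : Finset (Fin n))
    (hU : (⟨k, hk⟩ : Fin n) ∉ U) (hU' : (⟨l, hl⟩ : Fin n) ∉ U) :
    ∃ ε : ℤˣ, EE F n k * EE F n l * mon F n U = ε • mon F n (insert ⟨k, hk⟩ (insert ⟨l, hl⟩ U)) := by
  obtain ⟨ε, h⟩ := EE_mul (F := F) l hl U hU'
  obtain ⟨ε', h'⟩ := EE_mul (F := F) k hk (insert ⟨l, hl⟩ U) (by simp [hkl, hU])
  refine ⟨ε * ε', ?_⟩
  rw [mul_assoc, h, Units.smul_def, mul_smul_comm, h', ← Units.smul_def, mul_smul]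

theorem PP_mul (m : ℕ) (q : ℕ) (hq : m + 2 * q ≤ n) : ∀ (U : Finset (Fin n))
    (_ : ∀ i ∈ U, ¬ (m ≤ i.val ∧ i.val < m + 2 * q)),
    ∃ ε : ℤˣ, PP F n m q * mon F n U = 
      ε • mon F n (U ∪ Finset.univ.filter (fun i : Fin n => m ≤ i.val ∧ i.val < m + 2 * q)) := by
  induction q with
  | zero =>
    intro U hU
    refine ⟨1, ?_⟩
    have : Finset.univ.filter (fun i : Fin n => m ≤ i.val ∧ i.val < m + 2 * 0) = ∅ := by
      ext i; simp
    rw [this]; simp [PP]
  | succ q ih =>
    intro U hU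
    obtain ⟨ε, h⟩ := EEEE_mul (F := F) (m + 2 * q) (m + 2 * q + 1) (by omega) (by omega) (by omega) U
      (fun h => hU _ h ⟨by dsimp; omega, by dsimp; omega⟩) (fun h => hU _ h ⟨by dsimp; omega, by dsimp; omega⟩)
    obtain ⟨ε', h'⟩ := ih (by omega) (insert ⟨m + 2 * q, by omega⟩ (insert ⟨m + 2 * q + 1, by omega⟩ U)) (by
      intro i hi
      simp only [Finset.mem_insert] at hi
      rcases hi with rfl | rfl | hi
      · simp
      · simp
      · intro h; exact hU i hi ⟨h.1, by omega⟩)
    refine ⟨ε * ε', ?_⟩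
    rw [PP, mul_assoc, tt, h, Units.smul_def, mul_smul_comm, h', ← Units.smul_def, mul_smul]
    congr 3
    ext i
    simp only [Finset.mem_union, Finset.mem_insert, Finset.mem_filter, Finset.mem_univ, true_and, Fin.ext_iff]
    constructor
    · rintro ((h | h | h) | h)
      · right; omega
      · right; omega
      · left; exact h
      · right; omega
    · rintro (h | h)
      · left; right; right; exact h
      · by_cases h1 : i.val = m + 2 * q
        · left; left; exact h1
        · by_cases h2 : i.val = m + 2 * q + 1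
          · left; right; left; exact h2
          · right; omega


/-- indices `≥ m` -/
def hi (n m : ℕ) : Finset (Fin n) := Finset.univ.filter (fun i : Fin n => m ≤ i.val)

theorem hi_card (m : ℕ) : (hi n m).card ≤ n - m := by
  have : (hi n m).card ≤ (Finset.Ico m n).card := by
    refine Finset.card_le_card_of_injOn (fun i => i.val) ?_ ?_
    · intro i hi'
      simp only [hi, Finset.coe_filter, Finset.mem_univ, true_and, Set.mem_ofPred_eq] at hi'
      simp [hi', i.isLt]
    · intro i _ j _ h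
      exact Fin.ext h
  simpa using this

theorem filt_le (m : ℕ) (S : Finset (Fin n)) : S.filter (fun i => m ≤ i.val) ⊆ hi n m :=
  Finset.filter_subset_filter _ (Finset.subset_univ S)

theorem tt_wt {W : Fin n → ℤ} (k l : ℕ) (hk : k < n) (hl : l < n) (h : W ⟨k, hk⟩ + W ⟨l, hl⟩ = 2) :
    EE F n k * EE F n l ∈ wt F W 2 := by
  rw [EE, EE, dif_pos hk, dif_pos hl, ← h]
  exact wt_mul (mon_mem_sp (by simp [wS])) (mon_mem_sp (by simp [wS]))

/-- weights -/
def WW (n m p : ℕ) : Fin n → ℤ := fun i =>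
  if i.val = 0 then 0 else if i.val = 1 then -(2 * p + 2) else if i.val < m then 2 * p + 4 else 1

theorem TT_wt (m p : ℕ) (hm : 2 ≤ m) (hn : n = m + 2 * p) : TT F n m p ∈ wt F (WW n m p) 2 := by
  refine Submodule.sum_mem _ fun i hi' => ?_
  rw [Finset.mem_range] at hi'
  refine tt_wt _ _ (by omega) (by omega) ?_
  simp only [WW]
  rw [if_neg (by omega), if_neg (by omega), if_neg (by omega), if_neg (by omega), if_neg (by omega),
    if_neg (by omega)]
  norm_num

theorem wS_even (p : ℕ) (hn : n = 2 + 2 * p) (S : Finset (Fin n)) :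
    wS (WW n 2 p) S = ((S.filter (fun i => 2 ≤ i.val)).card : ℤ) +
      (if (⟨1, by omega⟩ : Fin n) ∈ S then (-(2 * p + 2) : ℤ) else 0) := by
  rw [wS, Finset.card_filter, Nat.cast_sum, ← Finset.sum_ite_eq' S ⟨1, by omega⟩ (fun _ => (-(2 * p + 2) : ℤ)),
    ← Finset.sum_add_distrib]
  refine Finset.sum_congr rfl fun i _ => ?_
  simp only [WW, Fin.ext_iff]
  split_ifs <;> omega

theorem wS_odd (p : ℕ) (hn : n = 3 + 2 * p) (S : Finset (Fin n)) :
    wS (WW n 3 p) S = ((S.filter (fun i => 3 ≤ i.val)).card : ℤ) +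
      (if (⟨1, by omega⟩ : Fin n) ∈ S then (-(2 * p + 2) : ℤ) else 0) +
      (if (⟨2, by omega⟩ : Fin n) ∈ S then (2 * p + 4 : ℤ) else 0) := by
  rw [wS, Finset.card_filter, Nat.cast_sum, ← Finset.sum_ite_eq' S ⟨1, by omega⟩ (fun _ => (-(2 * p + 2) : ℤ)),
    ← Finset.sum_ite_eq' S ⟨2, by omega⟩ (fun _ => (2 * p + 4 : ℤ)),
    ← Finset.sum_add_distrib, ← Finset.sum_add_distrib]
  refine Finset.sum_congr rfl fun i _ => ?_
  simp only [WW, Fin.ext_iff]
  split_ifs <;> omega

theorem hi_card_eq (m : ℕ) (h : m ≤ n) : (hi n m).card = n - m := by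
  have h2 := hi_card (n := n) m
  have h3 : (Finset.univ.filter (fun i : Fin n => i.val < m)).card ≤ m := by
    have : (Finset.univ.filter (fun i : Fin n => i.val < m)).card ≤ (Finset.range m).card := by
      refine Finset.card_le_card_of_injOn (fun i => i.val) ?_ ?_
      · intro i hi'
        simp only [Finset.coe_filter, Finset.mem_univ, true_and, Set.mem_ofPred_eq] at hi'
        simp [hi']
      · intro i _ j _ h
        exact Fin.ext h
    simpa using this
  have h5 := Finset.card_filter_add_card_filter_not (s := (Finset.univ : Finset (Fin n))) (fun i : Fin n => i.val < m)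
  simp only [not_lt, Finset.card_univ, Fintype.card_fin] at h5
  have h6 : (Finset.univ.filter (fun i : Fin n => m ≤ i.val)).card = (hi n m).card := rfl
  omega

theorem hi_filter (m : ℕ) (hm : 2 ≤ m) (hn : 1 < n) : 
    (insert (⟨1, hn⟩ : Fin n) (hi n m)).filter (fun i => m ≤ i.val) = hi n m := by
  ext i
  simp only [hi, Finset.mem_filter, Finset.mem_insert, Finset.mem_univ, true_and]
  constructor
  · rintro ⟨_, h⟩; exact h
  · intro h; exact ⟨Or.inr h, h⟩

/-- sets which contain index 1, everything `≥ m`, and nothing else except possibly index 0 -/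
theorem set_cl (m : ℕ) (hm : 2 ≤ m) (hn : 1 < n) (S : Finset (Fin n)) (h1 : (⟨1, hn⟩ : Fin n) ∈ S)
    (h2 : ∀ i : Fin n, m ≤ i.val → i ∈ S) (h3 : ∀ i : Fin n, 2 ≤ i.val → i.val < m → i ∉ S) :
    S = insert ⟨1, hn⟩ (hi n m) ∨ S = insert ⟨0, by omega⟩ (insert ⟨1, hn⟩ (hi n m)) := by
  by_cases h0 : (⟨0, by omega⟩ : Fin n) ∈ S
  · right
    ext i
    simp only [hi, Finset.mem_insert, Finset.mem_filter, Finset.mem_univ, true_and, Fin.ext_iff]
    constructor
    · intro hi'
      by_contra hcon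
      push Not at hcon
      exact h3 i (by omega) (by omega) hi'
    · rintro (h | h | h)
      · have : i = ⟨0, by omega⟩ := Fin.ext h
        rw [this]; exact h0
      · have : i = ⟨1, by omega⟩ := Fin.ext h
        rw [this]; exact h1
      · exact h2 i h
  · left
    ext i
    simp only [hi, Finset.mem_insert, Finset.mem_filter, Finset.mem_univ, true_and, Fin.ext_iff]
    constructor
    · intro hi'
      have : i.val ≠ 0 := by
        intro h
        have : i = ⟨0, by omega⟩ := Fin.ext h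
        rw [this] at hi'; exact h0 hi'
      by_contra hcon
      push Not at hcon
      exact h3 i (by omega) (by omega) hi'
    · rintro (h | h)
      · have : i = ⟨1, by omega⟩ := Fin.ext h
        rw [this]; exact h1
      · exact h2 i h

theorem dat_even (p : ℕ) (hn : n = 2 + 2 * p) :
    Dat (WW n 2 p) (TT F n 2 p) ⟨1, by omega⟩ ⟨0, by omega⟩ (insert ⟨1, by omega⟩ (hi n 2)) := by
  have hcard : ∀ S : Finset (Fin n), (S.filter (fun i => 2 ≤ i.val)).card ≤ 2 * p := fun S => by
    have h1 := Finset.card_le_card (filt_le 2 S)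
    have h2 := hi_card (n := n) 2
    omega
  refine ⟨TT_wt 2 p le_rfl hn, TT_comm _ _, ?_, ?_, ?_, ?_, ?_, ?_⟩
  · intro V hV
    rw [wS_even p hn, if_pos hV]
    have := hcard V
    omega
  · intro S hS
    rw [wS_even p hn] at hS
    by_contra h
    rw [if_neg h] at hS
    omega
  · simp [WW]
  · rw [wS_even p hn, if_pos (Finset.mem_insert_self _ _), hi_filter 2 le_rfl (by omega), hi_card_eq 2 (by omega)]
    omega
  · simp [hi]
  · intro S hS
    rw [wS_even p hn] at hS
    split_ifs at hS with h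
    · have h2 := hi_card (n := n) 2
      have h3 : S.filter (fun i => 2 ≤ i.val) = hi n 2 := 
        Finset.eq_of_subset_of_card_le (filt_le 2 S) (by omega)
      refine set_cl 2 le_rfl (by omega) S h ?_ (fun i _ _ => by omega)
      intro i hi'
      have : i ∈ S.filter (fun i => 2 ≤ i.val) := by rw [h3]; simp [hi, hi']
      exact (Finset.mem_filter.mp this).1
    · omega

theorem dat_odd (p : ℕ) (hn : n = 3 + 2 * p) :
    Dat (WW n 3 p) (TT F n 3 p + EE F n 1 * EE F n 2) ⟨1, by omega⟩ ⟨0, by omega⟩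
      (insert ⟨1, by omega⟩ (hi n 3)) := by
  have hcard : ∀ S : Finset (Fin n), (S.filter (fun i => 3 ≤ i.val)).card ≤ 2 * p := fun S => by
    have h1 := Finset.card_le_card (filt_le 3 S)
    have h2 := hi_card (n := n) 3
    omega
  have hi2 : (⟨2, by omega⟩ : Fin n) ∉ (insert ⟨1, by omega⟩ (hi n 3) : Finset (Fin n)) := by simp [hi]
  refine ⟨add_mem (TT_wt 3 p (by norm_num) hn) (tt_wt 1 2 (by omega) (by omega) ?_), ?_, ?_, ?_, ?_, ?_, ?_, ?_⟩
  · simp [WW]
  · intro y
    rw [add_mul, mul_add, TT_comm, EEEE_comm]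
  · intro V hV
    rw [wS_odd p hn, if_pos hV]
    have := hcard V
    split_ifs <;> omega
  · intro S hS
    rw [wS_odd p hn] at hS
    by_contra h
    rw [if_neg h] at hS
    split_ifs at hS <;> omega
  · simp [WW]
  · rw [wS_odd p hn, if_pos (Finset.mem_insert_self _ _), if_neg hi2, hi_filter 3 (by norm_num) (by omega),
      hi_card_eq 3 (by omega)]
    omega
  · simp [hi]
  · intro S hS
    rw [wS_odd p hn] at hS
    have hc := hcard S
    by_cases h : (⟨1, by omega⟩ : Fin n) ∈ S
    · by_cases h' : (⟨2, by omega⟩ : Fin n) ∈ S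
      · rw [if_pos h, if_pos h'] at hS; omega
      · rw [if_pos h, if_neg h'] at hS
        have h2 := hi_card (n := n) 3
        have h3 : S.filter (fun i => 3 ≤ i.val) = hi n 3 := 
          Finset.eq_of_subset_of_card_le (filt_le 3 S) (by omega)
        refine set_cl 3 (by norm_num) (by omega) S h ?_ ?_
        · intro i hi'
          have : i ∈ S.filter (fun i => 3 ≤ i.val) := by rw [h3]; simp [hi, hi']
          exact (Finset.mem_filter.mp this).1
        · intro i h4 h5
          have : i = ⟨2, by omega⟩ := Fin.ext (by dsimp; omega)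
          rw [this]; exact h'
    · rw [if_neg h] at hS
      split_ifs at hS <;> omega

theorem hi_eq (m p : ℕ) (hn : n = m + 2 * p) : 
    Finset.univ.filter (fun i : Fin n => m ≤ i.val ∧ i.val < m + 2 * p) = hi n m := by
  ext i
  simp only [hi, Finset.mem_filter, Finset.mem_univ, true_and]
  omega

theorem PP_mul' (m p : ℕ) (hn : n = m + 2 * p) (U : Finset (Fin n)) (hU : ∀ i ∈ U, i.val < m) :
    ∃ ε : ℤˣ, PP F n m p * mon F n U = ε • mon F n (U ∪ hi n m) := by
  obtain ⟨ε, h⟩ := PP_mul (F := F) m p hn.ge U (fun i hi' h => by have := hU i hi'; omega)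
  exact ⟨ε, by rw [h, hi_eq m p hn]⟩

theorem units_smul_mon_ne (ε : ℤˣ) (S : Finset (Fin n)) [CharZero F] : (ε • mon F n S) ≠ 0 := by
  intro h
  have : mon F n S = 0 := by
    have h2 := congrArg (fun z => ε⁻¹ • z) h
    simpa [smul_smul] using h2
  exact (mon F n).ne_zero S this

theorem lower_even [CharZero F] (p : ℕ) (hn : n = 2 + 2 * p) :
    ∃ R : Module.End F (ExteriorAlgebra F (Fin n → F)), IsRotaBaxter R ∧ R ^ (n - 1) ≠ 0 := by
  refine ⟨_, opR_rb (dat_even (F := F) p hn), fun h => ?_⟩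
  obtain ⟨ε, hε⟩ := PP_mul' (F := F) 2 p hn {⟨1, by omega⟩} (by simp)
  obtain ⟨ε', hε'⟩ := PP_mul' (F := F) 2 p hn {⟨0, by omega⟩} (by simp)
  have hfac : (p.factorial : F) ≠ 0 := Nat.cast_ne_zero.mpr (Nat.factorial_ne_zero p)
  have hεF : ((ε : ℤ) : F) ≠ 0 := Int.cast_ne_zero.mpr (Units.ne_zero ε)
  refine opR_chain (dat_even (F := F) p hn) p p ?_ (c := (p.factorial : F) * ((ε : ℤ) : F)) (mul_ne_zero hfac hεF) ?_ ?_ ?_
  · simp [WW]
  · rw [(TT_pow (F := F) (n := n) 2 p).1, smul_mul_assoc, hε, mul_smul]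
    rw [Units.smul_def, Int.cast_smul_eq_zsmul, ← Finset.insert_eq]
  · rw [(TT_pow (F := F) (n := n) 2 p).1, smul_mul_assoc, hε']
    exact smul_ne_zero hfac (units_smul_mon_ne _ _)
  · have : p + 1 + p = n - 1 := by omega
    rw [this, h]; rfl

theorem lower_odd [CharZero F] (p : ℕ) (hn : n = 3 + 2 * p) :
    ∃ R : Module.End F (ExteriorAlgebra F (Fin n → F)), IsRotaBaxter R ∧ R ^ (n - 1) ≠ 0 := by
  refine ⟨_, opR_rb (dat_odd (F := F) p hn), fun h => ?_⟩
  obtain ⟨ε, hε⟩ := PP_mul' (F := F) 3 p hn {⟨1, by omega⟩} (by simp)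
  obtain ⟨η, hη⟩ := EEEE_mul (F := F) (n := n) 1 2 (by omega) (by omega) (by norm_num) {(⟨0, by omega⟩ : Fin n)} (by simp) (by simp)
  obtain ⟨ε', hε'⟩ := PP_mul' (F := F) 3 p hn (insert ⟨1, by omega⟩ (insert ⟨2, by omega⟩ {⟨0, by omega⟩})) (by simp)
  have hfac : (p.factorial : F) ≠ 0 := Nat.cast_ne_zero.mpr (Nat.factorial_ne_zero p)
  have hεF : ((ε : ℤ) : F) ≠ 0 := Int.cast_ne_zero.mpr (Units.ne_zero ε)
  have hsum := sum_pow (TT_comm (F := F) (n := n) 3 p) (EEEE_sq (F := F) (n := n) 1 2)
  refine opR_chain (dat_odd (F := F) p hn) p (p + 1) ?_ (c := (p.factorial : F) * ((ε : ℤ) : F)) (mul_ne_zero hfac hεF) ?_ ?_ ?_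
  · simp [WW]
  · have h0 : EE F n 1 * EE F n 2 * mon F n {⟨1, by omega⟩} = 0 := by
      rw [EEEE_comm, ← mul_assoc]
      have : mon F n {⟨1, by omega⟩} * EE F n 1 = 0 := by
        rw [EE, dif_pos (by omega)]
        exact mon_mul_not_disj _ _ (by simp)
      rw [this, zero_mul]
    rw [hsum, add_mul, smul_mul_assoc, mul_assoc _ (EE F n 1 * EE F n 2), h0, mul_zero, smul_zero, add_zero,
      (TT_pow (F := F) (n := n) 3 p).1, smul_mul_assoc, hε, mul_smul]
    rw [Units.smul_def, Int.cast_smul_eq_zsmul, ← Finset.insert_eq]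
  · rw [hsum, (TT_pow (F := F) (n := n) 3 p).2, zero_add, smul_mul_assoc, Nat.add_sub_cancel,
      (TT_pow (F := F) (n := n) 3 p).1, smul_mul_assoc, smul_mul_assoc, mul_assoc, hη, Units.smul_def,
      mul_smul_comm, hε', ← Units.smul_def, smul_smul η]
    refine smul_ne_zero (Nat.cast_ne_zero.mpr (Nat.succ_ne_zero p)) (smul_ne_zero hfac (units_smul_mon_ne _ _))
  · have : p + 1 + 1 + p = n - 1 := by omega
    rw [this, h]; rfl

theorem lower_any [CharZero F] (hn : 1 ≤ n) :
    ∃ R : Module.End F (ExteriorAlgebra F (Fin n → F)), IsRotaBaxter R ∧ R ≠ 0 := by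
  classical
  refine ⟨(mon F n).constr F (fun S => if S = ∅ then mon F n Finset.univ else 0), ?_, ?_⟩
  · have himg : ∀ x, ∃ c : F, (mon F n).constr F (fun S => if S = ∅ then mon F n Finset.univ else 0) x = 
        c • mon F n Finset.univ := by
      intro x
      have hx := fil_zero x
      induction hx using Submodule.span_induction with
      | zero => exact ⟨0, by simp⟩
      | add a b _ _ ha hb =>
        obtain ⟨c, hc⟩ := ha
        obtain ⟨d, hd⟩ := hb
        exact ⟨c + d, by rw [map_add, hc, hd, add_smul]⟩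
      | smul r a _ ha =>
        obtain ⟨c, hc⟩ := ha
        exact ⟨r * c, by rw [map_smul, hc, smul_smul]⟩
      | mem a ha =>
        obtain ⟨S, _, rfl⟩ := ha
        rw [Basis.constr_basis]
        by_cases h : S = ∅
        · exact ⟨1, by rw [if_pos h, one_smul]⟩
        · exact ⟨0, by rw [if_neg h, zero_smul]⟩
    have hker : ∀ y ∈ fil F n 1, (mon F n).constr F (fun S => if S = ∅ then mon F n Finset.univ else 0) y = 0 := by
      intro y hy
      induction hy using Submodule.span_induction with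
      | zero => simp
      | add a b _ _ ha hb => rw [map_add, ha, hb, add_zero]
      | smul r a _ ha => rw [map_smul, ha, smul_zero]
      | mem a ha =>
        obtain ⟨S, hS, rfl⟩ := ha
        rw [Basis.constr_basis, if_neg]
        rintro rfl
        simp at hS
    have huf : mon F n Finset.univ ∈ fil F n 1 := mon_mem_sp (by simp only [Set.mem_ofPred_eq, Finset.card_univ, Fintype.card_fin]; exact hn)
    intro x y
    obtain ⟨c, hc⟩ := himg x
    obtain ⟨d, hd⟩ := himg y
    rw [hc, hd, smul_mul_smul_comm, mon_mul_not_disj _ _ ?_, smul_zero, hker]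
    · refine add_mem ?_ ?_
      · rw [smul_mul_assoc]
        refine Submodule.smul_mem _ _ ?_
        have := fil_mul huf (fil_zero y)
        simpa using this
      · rw [mul_smul_comm]
        refine Submodule.smul_mem _ _ ?_
        have := fil_mul (fil_zero x) huf
        simpa using this
    · rw [disjoint_self, Finset.bot_eq_empty]
      intro h
      have : (⟨0, by omega⟩ : Fin n) ∈ (Finset.univ : Finset (Fin n)) := Finset.mem_univ _
      rw [h] at this
      simp at this
  · intro h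
    have h1 : (mon F n).constr F (fun S => if S = ∅ then mon F n Finset.univ else 0) (mon F n ∅) = 
        mon F n Finset.univ := by rw [Basis.constr_basis, if_pos rfl]
    rw [h] at h1
    exact (mon F n).ne_zero Finset.univ h1.symm

theorem upper_one [CharZero F] {R : Module.End F (ExteriorAlgebra F (Fin 1 → F))} (hR : IsRotaBaxter R) :
    R ^ 2 = 0 := by
  refine LinearMap.ext fun x => ?_
  rw [pow_two, Module.End.mul_apply]
  exact rb_top hR (rb_fil1 hR x)

/-- **The Rota-Baxter index of the Grassmann algebras.**  Over a field of characteristic zero,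
the least `m` such that `R ^ m = 0` for every Rota-Baxter operator `R` of weight `0` on the
Grassmann algebra on `n ≥ 1` generators is `max 2 n`; so `rb(Gr_1) = 2` and `rb(Gr_n) = n` for
`n ≥ 2`. -/
theorem result (F : Type*) [Field F] [CharZero F] (n : ℕ) (hn : 1 ≤ n) :
    IsRBIndex F (ExteriorAlgebra F (Fin n → F)) (max 2 n) := by
  constructor
  · intro R hR
    rcases Nat.lt_or_ge n 2 with h | h
    · have : n = 1 := by omega
      subst this
      exact upper_one hR
    · rw [max_eq_right h]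
      exact rb_upper hR h
  · intro m hm
    by_contra hlt
    push Not at hlt
    have hbig : ∀ k, m ≤ k → ∀ R : Module.End F (ExteriorAlgebra F (Fin n → F)), IsRotaBaxter R → R ^ k = 0 := by
      intro k hk R hR
      obtain ⟨l, rfl⟩ := Nat.exists_eq_add_of_le hk
      rw [pow_add, hm R hR, zero_mul]
    rcases Nat.lt_or_ge n 3 with h | h
    · obtain ⟨R, hR, hR0⟩ := lower_any (F := F) hn
      have : m ≤ 1 := by
        have : max 2 n = 2 := by omega
        omega
      have := hbig 1 this R hR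
      rw [pow_one] at this
      exact hR0 this
    · have h1 : max 2 n = n := by omega
      rw [h1] at hlt
      rcases Nat.even_or_odd n with hpar | hpar
      · obtain ⟨s, hs⟩ := hpar
        obtain ⟨R, hR, hR0⟩ := lower_even (F := F) (n := n) (s - 1) (by omega)
        exact hR0 (hbig (n - 1) (by omega) R hR)
      · obtain ⟨s, hs⟩ := hpar
        obtain ⟨R, hR, hR0⟩ := lower_odd (F := F) (n := n) (s - 1) (by omega)
        exact hR0 (hbig (n - 1) (by omega) R hR)

end Pool.Agent.Results.MP_160e58_al.GrassmannRBIndex
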